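import Pool.Agent.H57.CN.Targets
import Pool.Agent.H57.LH.Ex

/-! Row BET of chn_modules: the elements of the flags. -/

set_option autoImplicit false
set_option linter.unusedVariables false

namespace Pool.Agent.H44.CN

open Pool.Agent.H68.BP Pool.Agent.H58.SF Pool.Agent.H53.NR
open Pool.Agent.H53.GC (strOn sigOf)
open Pool.Agent.H57.AR (tp ty Ty)
open Pool.Agent.H57.LH (Hmg tp_iff strOn_on)
open Pool.Agent.H44.KR (HB Amg Tyi TpOn LcN)
open Pool.Agent.H72.CH
open Pool.Agent.H57.CN
open Function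

section

variable {V : Type} {ρ : Sig} {𝔹 : Str ρ V} {m R : ℕ} {lv : V → V → ℕ}

/-- relations of induced structures -/
lemma NR_comp {W W' : Type} (s : W → Fin m) (κ : (Fin m → W) → Fin m → V) (f : W' → W)
    (i : NI ρ m R) (z : NA ρ m R i → W') :
    NR 𝔹 lv s κ i (fun q => f (z q)) =
      NR 𝔹 lv (fun a => s (f a)) (fun z h => κ (fun i => f (z i)) h) i z := by
  rcases i with i | p
  · rfl
  · rfl

lemma card_pos (hm : 1 ≤ m) (hR : 2 ≤ R) (i : NI ρ m R) : 0 < Nat.card (NA ρ m R i) := by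
  rcases i with i | p
  · haveI : Nonempty (NA ρ m R (Sum.inl i)) := ⟨()⟩
    exact Nat.card_pos
  · haveI : Nonempty (NA ρ m R (Sum.inr p)) := ⟨(⟨0, by omega⟩, ⟨0, by omega⟩)⟩
    exact Nat.card_pos

lemma cp_last (hm : 1 ≤ m) {W : Type} (z : Fin m → W) :
    cp z ⟨m - 1, by omega⟩ = fun i => Sum.inl (z i) := by
  funext i
  have hi : i ≤ (⟨m - 1, by omega⟩ : Fin m) := by
    rw [Fin.le_def]
    have := i.2
    simp only
    omega
  simp [cp, hi]

/-- from relations of full flags to types -/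
lemma tp_full (hV : HV 𝔹 m lv) (hm : 1 ≤ m) {W W' : Type} (s : W → Fin m) (s' : W' → Fin m)
    (g : (Fin m → W ⊕ Fin m) → V) (g' : (Fin m → W' ⊕ Fin m) → V) (f : W → W')
    (h : ∀ (i : NI ρ m R) (z : NA ρ m R i → W),
      NR 𝔹 lv s (dk g) i z ↔ NR 𝔹 lv s' (dk g') i (fun q => f (z q)))
    (w : Fin R → Fin m → W) (hw : ∀ a, IsFl s (w a)) :
    tp 𝔹 (fun a => g (fun i => Sum.inl (w a i))) =
      tp 𝔹 (fun a => g' (fun i => Sum.inl (f (w a i)))) := by
  have hlast : ∀ {W : Type} (g : (Fin m → W ⊕ Fin m) → V) (z : Fin m → W),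
      dk g z ⟨m - 1, by omega⟩ = g (fun i => Sum.inl (z i)) := by
    intro W g z
    unfold dk
    rw [cp_last hm]
  have h1 := (h (Sum.inr (fun _ => ⟨m - 1, by omega⟩,
    tp 𝔹 (fun a => g (fun i => Sum.inl (w a i))))) (fun q => w q.1 q.2)).1
    ⟨fun a i _ => hw a i, fun a => g (fun i => Sum.inl (w a i)), fun a => by
      show m - 1 + 1 ≤ lv (g (fun i => Sum.inl (w a i))) (dk g (fun i => w a i) ⟨m - 1, by omega⟩)
      rw [hlast, hV.lev.pl.self]
      omega, rfl⟩
  obtain ⟨_, x, hx1, hx2⟩ := h1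
  have hx3 : x = fun a => g' (fun i => Sum.inl (f (w a i))) := by
    funext a
    have h2 : m - 1 + 1 ≤ lv (x a) (dk g' (fun i => f (w a i)) ⟨m - 1, by omega⟩) := hx1 a
    rw [hlast] at h2
    refine hV.lev.eq _ _ (le_antisymm (hV.lev.pl.le _ _) ?_)
    omega
  rw [← hx3]
  exact hx2.symm

end

section main

variable {V : Type} {ρ : Sig} {𝔹 : Str ρ V} {m R : ℕ} {lv : V → V → ℕ}

/-- the flags with entries below `n` -/
abbrev FN (m n : ℕ) (st : ℕ → Fin m) : Type := {w : Fin m → Fin n // ∀ i, st (w i).1 = i}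

/-- `β` has the type of `g` on the flags with entries below `n` -/
def PB (𝔹 : Str ρ V) (n : ℕ) (st : ℕ → Fin m) (g : (Fin m → Fin n ⊕ Fin m) → V)
    (β : (Fin m → ℕ) → V) : Prop :=
  tp 𝔹 (fun w : FN m n st => β (fun i => ((w.1 i).1))) =
    tp 𝔹 (fun w : FN m n st => g (fun i => Sum.inl (w.1 i)))

/-- one step of the chain -/
lemma step (hV : HV 𝔹 m lv) (n : ℕ) (st : ℕ → Fin m) (g : (Fin m → Fin n ⊕ Fin m) → V)
    (g' : (Fin m → Fin (n + 1) ⊕ Fin m) → V)
    (hg : tp 𝔹 (fun w : FN m n st => g (fun i => Sum.inl (w.1 i))) =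
      tp 𝔹 (fun w : FN m n st => g' (fun i => Sum.inl (Fin.castSucc (w.1 i)))))
    (β : (Fin m → ℕ) → V) (hβ : PB 𝔹 n st g β) :
    ∃ β' : (Fin m → ℕ) → V, PB 𝔹 (n + 1) st g' β' ∧
      ∀ w : Fin m → ℕ, (∀ i, st (w i) = i) → (∀ i, w i < n) → β' w = β w := by
  classical
  have h0 := tp_iff.1 (hβ.trans hg)
  let A : Set (FN m (n + 1) st) := {w | ∀ i, (w.1 i).1 < n}
  let dn : (w : FN m (n + 1) st) → w ∈ A → FN m n st := fun w hw =>
    ⟨fun i => ⟨(w.1 i).1, hw i⟩, fun i => w.2 i⟩
  have e1 : ∀ (w : FN m (n + 1) st) (hw : w ∈ A),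
      g' (fun i => Sum.inl (Fin.castSucc ((dn w hw).1 i))) = g' (fun i => Sum.inl (w.1 i)) :=
    fun w hw => rfl
  obtain ⟨x', hx1, hx2⟩ := hV.hmg (FN m (n + 1) st) A
    (fun w => g' (fun i => Sum.inl (w.1 i))) (fun w => β (fun i => (w.1 i).1)) (by
      constructor
      · intro a ha b hb
        exact (h0.1 (dn a ha) (dn b hb)).symm
      · intro l z hz
        exact (h0.2 l (fun i => dn (z i) (hz i))).symm)
  refine ⟨fun w => if h : (∀ i, st (w i) = i) ∧ ∀ i, w i < n + 1 then
    x' ⟨fun i => ⟨w i, h.2 i⟩, fun i => h.1 i⟩ else β w, ?_, ?_⟩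
  · unfold PB
    refine Eq.trans ?_ hx1
    congr 1
    funext w
    have h : (∀ i, st ((w.1 i).1) = i) ∧ ∀ i, ((w.1 i).1) < n + 1 :=
      ⟨fun i => w.2 i, fun i => (w.1 i).2⟩
    exact dif_pos h
  · intro w h1 h2
    have h : (∀ i, st (w i) = i) ∧ ∀ i, w i < n + 1 := ⟨h1, fun i => Nat.lt_succ_of_lt (h2 i)⟩
    show (if h : (∀ i, st (w i) = i) ∧ ∀ i, w i < n + 1 then
      x' ⟨fun i => ⟨w i, h.2 i⟩, fun i => h.1 i⟩ else β w) = β w
    rw [dif_pos h]
    exact hx2 _ (fun i => h2 i)

/-- the chain -/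
lemma chain (hV : HV 𝔹 m lv) (hm : 1 ≤ m) (st : ℕ → Fin m)
    (g : (n : ℕ) → (Fin m → Fin n ⊕ Fin m) → V)
    (hg : ∀ n, tp 𝔹 (fun w : FN m n st => g n (fun i => Sum.inl (w.1 i))) =
      tp 𝔹 (fun w : FN m n st => g (n + 1) (fun i => Sum.inl (Fin.castSucc (w.1 i))))) :
    ∃ β : (Fin m → ℕ) → V, ∀ n, PB 𝔹 n st (g n) β := by
  classical
  obtain ⟨v0⟩ := hV.ne
  have hz : PB 𝔹 0 st (g 0) (fun _ => v0) := by
    unfold PB
    haveI : IsEmpty (FN m 0 st) := ⟨fun w => (w.1 ⟨0, by omega⟩).elim0⟩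
    congr 1
    funext w
    exact (IsEmpty.false w).elim
  let B : (n : ℕ) → {β : (Fin m → ℕ) → V // PB 𝔹 n st (g n) β} := fun n =>
    Nat.rec ⟨fun _ => v0, hz⟩ (fun n b =>
      ⟨(step hV n st (g n) (g (n + 1)) (hg n) b.1 b.2).choose,
        (step hV n st (g n) (g (n + 1)) (hg n) b.1 b.2).choose_spec.1⟩) n
  have hB : ∀ n (w : Fin m → ℕ), (∀ i, st (w i) = i) → (∀ i, w i < n) →
      (B (n + 1)).1 w = (B n).1 w := fun n =>
    (step hV n st (g n) (g (n + 1)) (hg n) (B n).1 (B n).2).choose_spec.2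
  have hB' : ∀ (w : Fin m → ℕ), (∀ i, st (w i) = i) → ∀ n, (∀ i, w i < n) → ∀ k,
      (B (n + k)).1 w = (B n).1 w := by
    intro w hw n hn k
    induction k with
    | zero => rfl
    | succ k ih =>
      rw [← ih]
      exact hB (n + k) w hw fun i => lt_of_lt_of_le (hn i) (Nat.le_add_right _ _)
  have hsup : ∀ w : Fin m → ℕ, ∀ i, w i < Finset.univ.sup w + 1 := fun w i =>
    Nat.lt_succ_of_le (Finset.le_sup (f := w) (Finset.mem_univ i))
  refine ⟨fun w => (B (Finset.univ.sup w + 1)).1 w, fun n => ?_⟩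
  have h1 : (fun w : FN m n st => (B (Finset.univ.sup (fun i => (w.1 i).1) + 1)).1
      (fun i => (w.1 i).1)) = fun w : FN m n st => (B n).1 (fun i => (w.1 i).1) := by
    funext w
    have hle : Finset.univ.sup (fun i => (w.1 i).1) + 1 ≤ n := by
      have h2 : 0 < n := lt_of_le_of_lt (Nat.zero_le _) (w.1 ⟨0, by omega⟩).2
      have h3 : Finset.univ.sup (fun i => (w.1 i).1) < n :=
        (Finset.sup_lt_iff (by exact h2)).2 fun i _ => (w.1 i).2
      omega
    have h4 := hB' (fun i => (w.1 i).1) (fun i => w.2 i)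
      (Finset.univ.sup (fun i => (w.1 i).1) + 1) (hsup _)
      (n - (Finset.univ.sup (fun i => (w.1 i).1) + 1))
    rw [Nat.add_sub_cancel' hle] at h4
    exact h4.symm
  unfold PB
  exact (congrArg (tp 𝔹) h1).trans (B n).2

theorem pf_BET (hKNO : T_KNO) : T_BET := by
  intro V ρ 𝔹 m lv hV hm R hR 𝔻 hD
  classical
  have hR2 : 2 ≤ R := by omega
  have hage : ∀ n : ℕ, ∃ (s : Fin n → Fin m) (g : (Fin m → Fin n ⊕ Fin m) → V),
      ExOn lv (sD s) g Set.univ ∧ pull 𝔻 (Fin.val : Fin n → ℕ) = strOn (NR 𝔹 lv s (dk g)) :=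
    fun n => hD.age (Fin n) Fin.val Fin.val_injective
  choose s g hg hs using hage
  -- relations of different levels
  have hrel : ∀ n n' (h : n ≤ n') (i : NI ρ m R) (z : NA ρ m R i → Fin n),
      NR 𝔹 lv (s n) (dk (g n)) i z ↔
        NR 𝔹 lv (s n') (dk (g n')) i (fun q => Fin.castLE h (z q)) := by
    intro n n' h
    have h1 := (strOn_on (R := NR 𝔹 lv (s n) (dk (g n))) (R' := NR 𝔹 lv (s n') (dk (g n')))
      (x := fun p : Fin n => p) (y := Fin.castLE h) Set.univ).1 (by
        intro l z _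
        rw [← hs n, ← hs n']
        exact Iff.rfl)
    exact fun i z => h1 i z fun _ => Set.mem_univ _
  let st : ℕ → Fin m := fun p => s (p + 1) ⟨p, Nat.lt_succ_self p⟩
  have hst : ∀ n (p : Fin n), s n p = st p.1 := by
    intro n p
    have h1 := (hrel (p.1 + 1) n p.2 (Sum.inl (st p.1)) (fun _ => ⟨p.1, Nat.lt_succ_self _⟩)).1 rfl
    exact h1
  have hgn : ∀ n, tp 𝔹 (fun w : FN m n st => g n (fun i => Sum.inl (w.1 i))) =
      tp 𝔹 (fun w : FN m n st => g (n + 1) (fun i => Sum.inl (Fin.castSucc (w.1 i)))) := by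
    intro n
    refine tp_of_small R (fun l => ?_) hR2 fun z => ?_
    · have h2 : ρ.ar l ≤ ρ.width := Finset.le_sup (f := ρ.ar) (Finset.mem_univ l)
      omega
    · exact tp_full (R := R) hV hm (s n) (s (n + 1)) (g n) (g (n + 1))
        (Fin.castLE (Nat.le_succ n)) (hrel n (n + 1) (Nat.le_succ n)) (fun a => (z a).1)
        (fun a i => by rw [hst]; exact (z a).2 i)
  obtain ⟨β, hβ⟩ := chain hV hm st g hgn
  -- the names `c`
  have hc : ∀ i : Fin m, ∃ p : ℕ, st p = i := by
    intro i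
    obtain ⟨𝕏, hX1, hX2⟩ := hKNO V ρ 𝔹 m lv R hV i
    obtain ⟨y, _, _, hy⟩ := hD.ext Unit ∅ (fun _ => 0) 𝕏 (fun a ha => absurd ha id) hX1 (by
      intro l z hz
      exact absurd (hz ⟨0, card_pos hm hR2 _⟩) id)
    refine ⟨y (), ?_⟩
    have h1 := hX2 (fun _ => s (y () + 1) ⟨y (), Nat.lt_succ_self _⟩)
      (fun z h => dk (g (y () + 1)) (fun i => ⟨y (), Nat.lt_succ_self _⟩) h) (by
        rw [← hy]
        funext l z
        have h2 := congrFun (congrFun (hs (y () + 1)) l)
          (fun i => (⟨y (), Nat.lt_succ_self _⟩ : Fin (y () + 1)))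
        refine Eq.trans ?_ (h2.trans ?_)
        · rfl
        · exact NR_comp (s (y () + 1)) (dk (g (y () + 1)))
            (fun _ : Unit => (⟨y (), Nat.lt_succ_self _⟩ : Fin (y () + 1))) _ _)
    exact h1
  choose c hc using hc
  refine ⟨st, β, c, hc, ?_, ?_⟩
  · -- exactness
    intro w w' hw hw' _ _ j hj
    let n := Finset.univ.sup w + Finset.univ.sup w' + 1
    have h1 : ∀ i, w i < n := fun i => by
      have := Finset.le_sup (f := w) (Finset.mem_univ i)
      simp only [n]
      omega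
    have h1' : ∀ i, w' i < n := fun i => by
      have := Finset.le_sup (f := w') (Finset.mem_univ i)
      simp only [n]
      omega
    let u : FN m n st := ⟨fun i => ⟨w i, h1 i⟩, hw⟩
    let u' : FN m n st := ⟨fun i => ⟨w' i, h1' i⟩, hw'⟩
    have h2 := lv_tp hV (hβ n) u u'
    have h3 : lv (β w) (β w') =
        lv (g n (fun i => Sum.inl (u.1 i))) (g n (fun i => Sum.inl (u'.1 i))) := h2
    rw [h3, hg n (fun i => Sum.inl (u.1 i)) (fun i => Sum.inl (u'.1 i))
      (fun i => by show s n (u.1 i) = i; rw [hst]; exact hw i)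
      (fun i => by show s n (u'.1 i) = i; rw [hst]; exact hw' i)
      (fun _ => Set.mem_univ _) (fun _ => Set.mem_univ _) j hj]
    constructor
    · intro h i hi
      have := h i hi
      simpa [u, u'] using this
    · intro h i hi
      have := h i hi
      simpa [u, u'] using this
  · -- relations
    have key : ∀ (n : ℕ), (∀ i, c i < n) → ∀ (i : NI ρ m R) (z : NA ρ m R i → Fin n),
        NR 𝔹 lv (s n) (dk (g n)) i z ↔ NR 𝔹 lv st (bk β c) i (fun q => (z q).1) := by
      intro n hn i z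
      rcases i with i | p
      · show s n (z ()) = i ↔ st (z ()).1 = i
        rw [hst]
      · have h1 := NR_class (R := R) hV (s := s n) (κ := dk (g n))
          (κ' := fun z h => g n (fun i => Sum.inl (if i ≤ h then z i else ⟨c i, hn i⟩)))
          (fun z h hz => by
            refine (hg n _ _ ?_ ?_ (fun _ => Set.mem_univ _) (fun _ => Set.mem_univ _)
              ((h : ℕ) + 1) h.2).2 ?_
            · intro i
              by_cases hi : i ≤ h
              · simp only [cp, if_pos hi]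
                exact hz i hi
              · simp only [cp, if_neg hi]
                rfl
            · intro i
              by_cases hi : i ≤ h
              · simp only [if_pos hi]
                exact hz i hi
              · simp only [if_neg hi]
                show s n ⟨c i, hn i⟩ = i
                rw [hst]
                exact hc i
            · intro i hi
              have hi' : i ≤ h := Fin.le_def.2 (Nat.lt_succ_iff.1 hi)
              simp only [cp, if_pos hi']) (Sum.inr p) z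
        rw [h1]
        refine NR_type hV p z (fun q => (z q).1) (fun q => hst n _) fun hz => ?_
        have hfl : ∀ a i,
            st ((if i ≤ p.1 a then z (a, i) else (⟨c i, hn i⟩ : Fin n)) : Fin n).1 = i := by
          intro a i
          by_cases hi : i ≤ p.1 a
          · rw [if_pos hi, ← hst]
            exact hz a i hi
          · rw [if_neg hi]
            exact hc i
        have h2 := tp_comp (hβ n) (fun a : Fin R => (⟨fun i => if i ≤ p.1 a then z (a, i) else
          (⟨c i, hn i⟩ : Fin n), hfl a⟩ : FN m n st))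
        refine Eq.trans h2.symm ?_
        congr 1
        funext a
        show β _ = β _
        congr 1
        funext i
        by_cases hi : i ≤ p.1 a
        · simp only [if_pos hi]
        · simp only [if_neg hi]
    funext l x
    let n := Finset.univ.sup x + Finset.univ.sup c + 1
    have hx : ∀ i, x i < n := fun i => by
      have := Finset.le_sup (f := x) (Finset.mem_univ i)
      simp only [n]
      omega
    have hcn : ∀ i, c i < n := fun i => by
      have := Finset.le_sup (f := c) (Finset.mem_univ i)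
      simp only [n]
      omega
    have h1 := congrFun (congrFun (hs n) l) (fun i => (⟨x i, hx i⟩ : Fin n))
    have h2 : 𝔻 l x = pull 𝔻 (Fin.val : Fin n → ℕ) l (fun i => (⟨x i, hx i⟩ : Fin n)) := rfl
    rw [h2, h1]
    exact propext (key n hcn _ _)

end main

end Pool.Agent.H44.CN
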